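import Pool.Agent.H31.CN.T4

/-! Row CRR of the board `cna_modules`: the singular constant is close to one. -/

set_option autoImplicit false

open Filter Topology
open scoped Real

namespace Pool.Agent.H22.CN

open Pool.Agent.H31.CN

theorem summable_prime_sq : Summable fun p : Nat.Primes => (((p : ℕ) : ℝ) ^ 2)⁻¹ := by
  have h := Real.summable_nat_pow_inv.2 (show 1 < 2 by norm_num)
  exact h.comp_injective (i := fun p : Nat.Primes => (p : ℕ)) Subtype.val_injective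

/-- products of factors close to one -/
theorem mult_of {f : Nat.Primes → ℝ} {C : ℝ} (R : ℕ)
    (h1 : ∀ p : Nat.Primes, (p : ℕ) ≤ R → |f p - 1| ≤ C)
    (h2 : ∀ p : Nat.Primes, R < (p : ℕ) → |f p - 1| ≤ C * (((p : ℕ) : ℝ) ^ 2)⁻¹) :
    Multipliable f := by
  have hs : Summable fun p : Nat.Primes => f p - 1 := by
    refine Summable.of_norm_bounded (summable_prime_sq.mul_left (|C| * (R + 1) ^ 2)) fun p => ?_
    have hp : (0 : ℝ) < ((p : ℕ) : ℝ) := by exact_mod_cast p.2.pos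
    rw [Real.norm_eq_abs]
    by_cases h : (p : ℕ) ≤ R
    · refine (h1 p h).trans ?_
      have h3 : ((p : ℕ) : ℝ) ≤ R := by exact_mod_cast h
      rw [← div_eq_mul_inv, le_div_iff₀ (by positivity)]
      have h4 : ((p : ℕ) : ℝ) ^ 2 ≤ (R + 1) ^ 2 := by
        apply pow_le_pow_left₀ hp.le
        linarith
      nlinarith [le_abs_self C, abs_nonneg C, sq_nonneg ((p : ℕ) : ℝ)]
    · refine (h2 p (by omega)).trans ?_
      apply mul_le_mul_of_nonneg_right _ (by positivity)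
      have h5 : (1 : ℝ) ≤ ((R : ℝ) + 1) ^ 2 := by
        have : (0 : ℝ) ≤ R := Nat.cast_nonneg _
        nlinarith
      nlinarith [le_abs_self C, abs_nonneg C]
  have h3 := Real.multipliable_one_add_of_summable hs
  simpa using h3

theorem tail_bound {f : Nat.Primes → ℝ} {C : ℝ} (hC : 0 ≤ C) (R : ℕ)
    (h1 : ∀ p : Nat.Primes, (p : ℕ) ≤ R → f p = 1)
    (h2 : ∀ p : Nat.Primes, R < (p : ℕ) → |f p - 1| ≤ C * (((p : ℕ) : ℝ) ^ 2)⁻¹) :
    |∏' p, f p - 1| ≤ Real.exp (C * (2 / ((R : ℝ) + 1))) - 1 := by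
  have hm : Multipliable f := mult_of (C := C) R (fun p hp => by rw [h1 p hp]; simpa using hC) h2
  have ht : Tendsto (fun s : Finset Nat.Primes => |∏ p ∈ s, f p - 1|) atTop
      (𝓝 |∏' p, f p - 1|) := (hm.hasProd.sub_const 1).abs
  refine le_of_tendsto ht (Eventually.of_forall fun s => ?_)
  have h3 := Finset.norm_prod_one_add_sub_one_le s (fun p : Nat.Primes => f p - 1)
  simp only [add_sub_cancel, Real.norm_eq_abs] at h3
  refine h3.trans (sub_le_sub_right (Real.exp_le_exp.2 ?_) _)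
  set M := s.sup (fun p : Nat.Primes => (p : ℕ)) with hM
  have h4 : ∑ p ∈ s, |f p - 1| ≤
      ∑ p ∈ s, if R < (p : ℕ) then C * (((p : ℕ) : ℝ) ^ 2)⁻¹ else 0 := by
    refine Finset.sum_le_sum fun p _ => ?_
    split_ifs with h
    · exact h2 p h
    · rw [h1 p (by omega)]
      simp
  refine h4.trans ?_
  rw [← Finset.sum_filter, ← Finset.mul_sum]
  refine mul_le_mul_of_nonneg_left ?_ hC
  refine le_trans ?_ (sum_Ioo_inv_sq_le (α := ℝ) R (M + 1))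
  rw [← Finset.sum_image (s := s.filter fun p : Nat.Primes => R < (p : ℕ))
    (g := fun p : Nat.Primes => (p : ℕ)) (f := fun n : ℕ => ((n : ℝ) ^ 2)⁻¹)
    (fun a _ b _ h => Subtype.val_injective h)]
  refine Finset.sum_le_sum_of_subset_of_nonneg ?_ fun i _ _ => by positivity
  intro n hn
  obtain ⟨p, hp, rfl⟩ := Finset.mem_image.1 hn
  obtain ⟨hps, hpR⟩ := Finset.mem_filter.1 hp
  refine Finset.mem_Ioo.2 ⟨hpR, ?_⟩
  have : (p : ℕ) ≤ M := Finset.le_sup (f := fun p : Nat.Primes => (p : ℕ)) hps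
  omega

/-- the factors -/
noncomputable def fa (x : ℝ) : ℝ := (1 - 2 * x) * (1 - x)⁻¹ ^ 2

noncomputable def fb (x : ℝ) : ℝ := (1 - x) * (1 + x * (1 - x ^ 2) / (1 - 2 * x) ^ 2)

theorem fa_sub {x : ℝ} (h0 : 0 ≤ x) (h1 : x ≤ 1 / 3) : |fa x - 1| ≤ 27 * x ^ 2 := by
  have hx : (1 - x) ≠ 0 := by linarith
  have h2 : fa x - 1 = -(x ^ 2 / (1 - x) ^ 2) := by
    unfold fa
    field_simp
    ring
  have h3 : (4 / 9 : ℝ) ≤ (1 - x) ^ 2 := by nlinarith
  rw [h2, abs_neg, abs_of_nonneg (by positivity), div_le_iff₀ (by positivity)]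
  nlinarith [sq_nonneg x]

theorem fb_sub {x : ℝ} (h0 : 0 ≤ x) (h1 : x ≤ 1 / 3) : |fb x - 1| ≤ 27 * x ^ 2 := by
  have hx : (1 - 2 * x) ≠ 0 := by linarith
  have h2 : fb x - 1 = x ^ 2 * (3 - 5 * x + x ^ 2) / (1 - 2 * x) ^ 2 := by
    have hx2 : (1 - 2 * x) ^ 2 ≠ 0 := pow_ne_zero _ hx
    have h3 : x * (1 - x ^ 2) / (1 - 2 * x) ^ 2 * (1 - 2 * x) ^ 2 = x * (1 - x ^ 2) :=
      div_mul_cancel₀ _ hx2
    unfold fb
    rw [eq_div_iff hx2]
    linear_combination (1 - x) * h3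
  have h3 : (1 / 9 : ℝ) ≤ (1 - 2 * x) ^ 2 := by nlinarith
  have h4 : 0 ≤ 3 - 5 * x + x ^ 2 := by nlinarith
  have h5 : 3 - 5 * x + x ^ 2 ≤ 3 := by nlinarith
  rw [h2, abs_of_nonneg (by positivity), div_le_iff₀ (by positivity)]
  nlinarith [sq_nonneg x, mul_le_mul_of_nonneg_left h5 (sq_nonneg x),
    mul_le_mul_of_nonneg_left h3 (sq_nonneg x)]

theorem fg_sub {x : ℝ} (_h0 : 0 ≤ x) (h1 : x ≤ 1 / 3) :
    |fa x * fa x * fb x - 1| ≤ 27 * x ^ 2 := by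
  have hx : (1 - x) ≠ 0 := by linarith
  have hx2 : (1 - 2 * x) ≠ 0 := by linarith
  have h2 : fa x * fa x * fb x - 1 = x ^ 2 / (1 - x) ^ 3 := by
    unfold fa fb
    field_simp
    ring
  have h3 : (8 / 27 : ℝ) ≤ (1 - x) ^ 3 := by
    have h4 : (2 / 3 : ℝ) ≤ 1 - x := by linarith
    calc (8 / 27 : ℝ) = (2 / 3) ^ 3 := by norm_num
      _ ≤ _ := pow_le_pow_left₀ (by norm_num) h4 3
  rw [h2, abs_of_nonneg (by positivity), div_le_iff₀ (by positivity)]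
  nlinarith [sq_nonneg x, mul_le_mul_of_nonneg_left h3 (sq_nonneg x)]

theorem inv_le_third {R : ℕ} (hR : 2 ≤ R) (p : Nat.Primes) (h : R < (p : ℕ)) :
    0 ≤ 1 / ((p : ℕ) : ℝ) ∧ 1 / ((p : ℕ) : ℝ) ≤ 1 / 3 := by
  refine ⟨by positivity, ?_⟩
  have h3 : (3 : ℝ) ≤ ((p : ℕ) : ℝ) := by
    have : 3 ≤ (p : ℕ) := by omega
    exact_mod_cast this
  exact one_div_le_one_div_of_le (by norm_num) h3

theorem inv_le_half (p : Nat.Primes) :
    0 < 1 / ((p : ℕ) : ℝ) ∧ 1 / ((p : ℕ) : ℝ) ≤ 1 / 2 := by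
  have h2 : (2 : ℝ) ≤ ((p : ℕ) : ℝ) := by exact_mod_cast p.2.two_le
  exact ⟨by positivity, one_div_le_one_div_of_le (by norm_num) h2⟩

theorem sing_eq {R : ℕ} (hR : 2 ≤ R) :
    (∏ p ∈ (primorial R).primeFactors, (1 - 1 / (p : ℝ)) ^ 3) * Sg (primorial R) =
      ∏' p : Nat.Primes, if (p : ℕ) ≤ R then 1 else
        fa (1 / ((p : ℕ) : ℝ)) * fa (1 / ((p : ℕ) : ℝ)) * fb (1 / ((p : ℕ) : ℝ)) := by
  have hd : ∀ p : Nat.Primes, (p : ℕ) ∣ primorial R ↔ (p : ℕ) ≤ R :=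
    fun p => p.2.dvd_primorial_iff
  have hH : Hq (primorial R) = ∏' p : Nat.Primes, if (p : ℕ) ≤ R then
      (1 - 1 / ((p : ℕ) : ℝ))⁻¹ ^ 2 else fa (1 / ((p : ℕ) : ℝ)) := by
    unfold Hq
    refine tprod_congr fun p => ?_
    simp only [hd p, fa]
    split_ifs
    · rfl
    · congr 1
      ring
  have hS : (∏' p : Nat.Primes, if (p : ℕ) ∣ primorial R then 1 - 1 / ((p : ℕ) : ℝ) else
      (1 - 1 / ((p : ℕ) : ℝ)) * (1 + 1 / ((p : ℕ) : ℝ) * (1 - 1 / ((p : ℕ) : ℝ) ^ 2) /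
      (1 - 2 / ((p : ℕ) : ℝ)) ^ 2)) = ∏' p : Nat.Primes, if (p : ℕ) ≤ R then
      1 - 1 / ((p : ℕ) : ℝ) else fb (1 / ((p : ℕ) : ℝ)) := by
    refine tprod_congr fun p => ?_
    simp only [hd p, fb]
    split_ifs
    · rfl
    · have h1 : 2 / ((p : ℕ) : ℝ) = 2 * (1 / ((p : ℕ) : ℝ)) := by ring
      rw [h1, one_div_pow]
  have hP : ∏ p ∈ (primorial R).primeFactors, (1 - 1 / (p : ℝ)) ^ 3 =
      ∏' p : Nat.Primes, if (p : ℕ) ≤ R then (1 - 1 / ((p : ℕ) : ℝ)) ^ 3 else 1 := by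
    have h0 : (∏' p : {n : ℕ // n.Prime}, if (p : ℕ) ≤ R then (1 - 1 / ((p : ℕ) : ℝ)) ^ 3
        else 1) = ∏ p ∈ (primorial R).primeFactors.subtype Nat.Prime,
          if (p : ℕ) ≤ R then (1 - 1 / ((p : ℕ) : ℝ)) ^ 3 else 1 := by
      refine tprod_eq_prod fun p hp => ?_
      rw [if_neg]
      intro h
      exact hp (Finset.mem_subtype.2 (Nat.mem_primeFactors.2
        ⟨p.2, (hd p).2 h, primorial_ne_zero R⟩))
    refine Eq.trans ?_ h0.symm
    rw [← Finset.prod_subtype_of_mem (p := Nat.Prime) (fun p : ℕ => (1 - 1 / (p : ℝ)) ^ 3)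
      (fun p hp => (Nat.mem_primeFactors.1 hp).1)]
    refine Finset.prod_congr rfl fun p hp => ?_
    have h1 : (p : ℕ) ∈ (primorial R).primeFactors := Finset.mem_subtype.1 hp
    rw [if_pos ((hd p).1 (Nat.dvd_of_mem_primeFactors h1))]
  have hsq : ∀ p : Nat.Primes, (1 / ((p : ℕ) : ℝ)) ^ 2 = (((p : ℕ) : ℝ) ^ 2)⁻¹ := by
    intro p
    rw [one_div_pow, one_div]
  have hm1 : Multipliable fun p : Nat.Primes => if (p : ℕ) ≤ R then
      (1 - 1 / ((p : ℕ) : ℝ))⁻¹ ^ 2 else fa (1 / ((p : ℕ) : ℝ)) := by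
    refine mult_of (C := 27) R (fun p hp => ?_) (fun p hp => ?_)
    · rw [if_pos hp]
      obtain ⟨h1, h2⟩ := inv_le_half p
      have h3 : (1 - 1 / ((p : ℕ) : ℝ))⁻¹ ≤ 2 := by
        rw [inv_le_comm₀ (by linarith) (by norm_num)]
        linarith
      have h4 : 0 < (1 - 1 / ((p : ℕ) : ℝ))⁻¹ := inv_pos.2 (by linarith)
      rw [abs_le]
      constructor <;> nlinarith
    · rw [if_neg (by omega), ← hsq]
      obtain ⟨h1, h2⟩ := inv_le_third hR p hp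
      exact fa_sub h1 h2
  have hm2 : Multipliable fun p : Nat.Primes => if (p : ℕ) ≤ R then
      1 - 1 / ((p : ℕ) : ℝ) else fb (1 / ((p : ℕ) : ℝ)) := by
    refine mult_of (C := 27) R (fun p hp => ?_) (fun p hp => ?_)
    · rw [if_pos hp]
      obtain ⟨h1, h2⟩ := inv_le_half p
      rw [abs_le]
      constructor <;> linarith
    · rw [if_neg (by omega), ← hsq]
      obtain ⟨h1, h2⟩ := inv_le_third hR p hp
      exact fb_sub h1 h2
  have hm3 : Multipliable fun p : Nat.Primes => if (p : ℕ) ≤ R then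
      (1 - 1 / ((p : ℕ) : ℝ)) ^ 3 else 1 := by
    refine mult_of (C := 27) R (fun p hp => ?_) (fun p hp => ?_)
    · rw [if_pos hp]
      obtain ⟨h1, h2⟩ := inv_le_half p
      have h3 : (1 - 1 / ((p : ℕ) : ℝ)) ^ 3 ≤ 1 := pow_le_one₀ (by linarith) (by linarith)
      have h4 : 0 ≤ (1 - 1 / ((p : ℕ) : ℝ)) ^ 3 := pow_nonneg (by linarith) _
      rw [abs_le]
      constructor <;> linarith
    · rw [if_neg (by omega)]
      simp
  unfold Sg
  rw [hP, hH, hS, pow_two, ← hm1.tprod_mul hm1, ← (hm1.mul hm1).tprod_mul hm2,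
    ← hm3.tprod_mul ((hm1.mul hm1).mul hm2)]
  refine tprod_congr fun p => ?_
  by_cases h : (p : ℕ) ≤ R
  · simp only [if_pos h]
    obtain ⟨h1, h2⟩ := inv_le_half p
    have h3 : 1 - 1 / ((p : ℕ) : ℝ) ≠ 0 := by linarith
    field_simp
  · simp only [if_neg h]
    ring

theorem sing_tendsto {ε : ℝ} (hε : 0 < ε) : ∃ R₀ : ℕ, ∀ R : ℕ, R₀ ≤ R →
    |(∏ p ∈ (primorial R).primeFactors, (1 - 1 / (p : ℝ)) ^ 3) * Sg (primorial R) - 1| ≤ ε := by
  have h1 : Tendsto (fun R : ℕ => Real.exp (27 * (2 / ((R : ℝ) + 1))) - 1) atTop (𝓝 0) := by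
    have h2 : Tendsto (fun R : ℕ => 27 * (2 / ((R : ℝ) + 1))) atTop (𝓝 0) := by
      have h3 := (tendsto_one_div_add_atTop_nhds_zero_nat (𝕜 := ℝ)).const_mul 54
      rw [mul_zero] at h3
      refine h3.congr fun R => ?_
      ring
    have h3 := ((Real.continuous_exp.tendsto 0).comp h2).sub_const 1
    simpa using h3
  obtain ⟨R₀, hR₀⟩ := eventually_atTop.1 (h1.eventually (ge_mem_nhds hε))
  refine ⟨max 2 R₀, fun R hR => ?_⟩
  have hR2 : 2 ≤ R := (le_max_left _ _).trans hR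
  refine le_trans ?_ (hR₀ R ((le_max_right _ _).trans hR))
  rw [sing_eq hR2]
  refine tail_bound (by norm_num) R (fun p hp => if_pos hp) (fun p hp => ?_)
  obtain ⟨h1, h2⟩ := inv_le_third hR2 p hp
  rw [if_neg (by omega)]
  refine (fg_sub h1 h2).trans (le_of_eq ?_)
  rw [one_div_pow, one_div]

theorem dR_eq {R : ℕ} (hR : 2 ≤ R) :
    dR (primorial R) = 1 / 3 * ∏ p ∈ Nat.primesBelow (R + 1), (1 - ((p : ℝ) ^ 2)⁻¹) := by
  unfold dR
  rw [primeFactors_primorial]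
  have h1 : ∏ p ∈ Nat.primesLE R, (if p = 2 then (1 : ℝ) else 1 - 1 / (p : ℝ) ^ 2) =
      ∏ p ∈ Nat.primesLE R, ((1 - ((p : ℝ) ^ 2)⁻¹) * if p = 2 then (4 / 3 : ℝ) else 1) := by
    refine Finset.prod_congr rfl fun p _ => ?_
    split_ifs with h
    · subst h
      norm_num
    · rw [one_div, mul_one]
  rw [h1, Finset.prod_mul_distrib, Finset.prod_ite_eq', if_pos (Nat.mem_primesLE.2
    ⟨hR, Nat.prime_two⟩)]
  have h2 : Nat.primesLE R = Nat.primesBelow (R + 1) := rfl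
  rw [h2]
  ring

theorem prod_tendsto :
    Tendsto (fun n : ℕ => ∏ p ∈ Nat.primesBelow n, (1 - ((p : ℝ) ^ 2)⁻¹)) atTop
      (𝓝 (6 / π ^ 2)) := by
  have h1 := riemannZeta_eulerProduct (s := 2) (by norm_num)
  rw [riemannZeta_two] at h1
  have h2 : Tendsto (fun n : ℕ => ((∏ p ∈ Nat.primesBelow n, (1 - ((p : ℝ) ^ 2)⁻¹)⁻¹ : ℝ) : ℂ))
      atTop (𝓝 ((π ^ 2 / 6 : ℝ) : ℂ)) := by
    have h3 : ((π ^ 2 / 6 : ℝ) : ℂ) = (π : ℂ) ^ 2 / 6 := by push_cast; rfl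
    rw [h3]
    refine h1.congr fun n => ?_
    rw [Complex.ofReal_prod]
    refine Finset.prod_congr rfl fun p hp => ?_
    push_cast
    rw [Complex.cpow_neg]
    norm_num
  have h3 : Tendsto (fun n : ℕ => (∏ p ∈ Nat.primesBelow n, (1 - ((p : ℝ) ^ 2)⁻¹)⁻¹))
      atTop (𝓝 (π ^ 2 / 6)) := by
    have h5 := (Complex.continuous_re.tendsto _).comp h2
    rw [Complex.ofReal_re] at h5
    exact h5.congr fun n => Complex.ofReal_re _
  have h4 := h3.inv₀ (by positivity)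
  have h5 : (π ^ 2 / 6)⁻¹ = 6 / π ^ 2 := by rw [inv_div]
  rw [h5] at h4
  refine h4.congr fun n => ?_
  rw [Finset.prod_inv_distrib, inv_inv]

theorem pf_CRR : T_CRR := by
  intro ε hε
  obtain ⟨R₁, h1⟩ := sing_tendsto hε
  have h2 : Tendsto (fun R : ℕ => |1 / 3 * ∏ p ∈ Nat.primesBelow (R + 1),
      (1 - ((p : ℝ) ^ 2)⁻¹) - 2 / π ^ 2|) atTop (𝓝 0) := by
    have h3 := (((prod_tendsto.comp (tendsto_add_atTop_nat 1)).const_mul (1 / 3)).sub_const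
      (2 / π ^ 2)).abs
    have h4 : |1 / 3 * (6 / π ^ 2) - 2 / π ^ 2| = 0 := by
      rw [abs_eq_zero]
      ring
    rw [h4] at h3
    exact h3
  obtain ⟨R₂, hR₂⟩ := eventually_atTop.1 (h2.eventually (ge_mem_nhds hε))
  refine ⟨max 2 (max R₁ R₂), fun R hR => ⟨h1 R ?_, ?_⟩⟩
  · exact ((le_max_left _ _).trans (le_max_right _ _)).trans hR
  · rw [dR_eq ((le_max_left _ _).trans hR)]
    exact hR₂ R (((le_max_right _ _).trans (le_max_right _ _)).trans hR)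

end Pool.Agent.H22.CN
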