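import Pool.Agent.H31.CN.T6
import Pool.Agent.H58.R2.Ind

/-! Row NUO of the board `cna_modules`: the Frobenius-Schur indicator of an induced character of
a generalized dihedral group. -/

set_option autoImplicit false

namespace Pool.Agent.H22.CN

open Pool.Agent.H31.CN Pool.Agent.H28.RC

open scoped Classical in
/-- the extension of a character by zero -/
noncomputable def ex {G : Type} [Group G] (A : Subgroup G) (φ : A →* ℂˣ) (g : G) : ℂ :=
  if h : g ∈ A then ((φ ⟨g, h⟩ : ℂˣ) : ℂ) else 0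

theorem sum_char_zero {A : Type} [Group A] [Fintype A] (χ : A →* ℂˣ) (hχ : χ ≠ 1) :
    ∑ a : A, ((χ a : ℂˣ) : ℂ) = 0 := by
  obtain ⟨b, hb⟩ : ∃ b, χ b ≠ 1 := by
    by_contra h
    push Not at h
    exact hχ (MonoidHom.ext h)
  have h1 : ∑ a : A, ((χ a : ℂˣ) : ℂ) = ((χ b : ℂˣ) : ℂ) * ∑ a : A, ((χ a : ℂˣ) : ℂ) := by
    rw [Finset.mul_sum, ← Equiv.sum_comp (Equiv.mulLeft b) (fun a : A => ((χ a : ℂˣ) : ℂ))]
    refine Finset.sum_congr rfl fun a _ => ?_
    rw [← Units.val_mul, ← map_mul]
    rfl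
  have h2 : (((χ b : ℂˣ) : ℂ) - 1) * ∑ a : A, ((χ a : ℂˣ) : ℂ) = 0 := by
    rw [sub_mul, one_mul, ← h1, sub_self]
  rcases mul_eq_zero.1 h2 with h | h
  · exact absurd (Units.ext (sub_eq_zero.1 h)) hb
  · exact h

theorem pf_NUO : T_NUO := by
  classical
  intro G _ _ A _ hidx _hcomm hg φ hφ
  have := Fintype.ofFinite G
  have := Fintype.ofFinite A
  have hA0 : (Nat.card A : ℂ) ≠ 0 := Nat.cast_ne_zero.2 Nat.card_pos.ne'
  have hG0 : (Nat.card G : ℂ) ≠ 0 := Nat.cast_ne_zero.2 Nat.card_pos.ne'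
  have hcard : Nat.card G = 2 * Nat.card A := by
    rw [← A.index_mul_card, hidx]
  have h2 : ∑ g : G, ex A φ (g ^ 2) = Nat.card A := by
    rw [← Finset.sum_filter_add_sum_filter_not Finset.univ (fun g : G => g ∈ A)]
    have e1 : ∑ g ∈ Finset.univ.filter (fun g : G => g ∈ A), ex A φ (g ^ 2) = 0 := by
      rw [Finset.sum_subtype (Finset.univ.filter (fun g : G => g ∈ A)) (p := fun g => g ∈ A)
        (by simp) (fun g : G => ex A φ (g ^ 2))]
      rw [← sum_char_zero (φ * φ) hφ]
      refine Finset.sum_congr rfl fun a _ => ?_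
      have hm : (a : G) ^ 2 ∈ A := A.pow_mem a.2 2
      unfold ex
      rw [dif_pos hm]
      congr 1
      rw [MonoidHom.mul_apply, ← map_mul]
      congr 1
      exact Subtype.ext (by simp [pow_two])
    have e2 : ∑ g ∈ Finset.univ.filter (fun g : G => ¬ g ∈ A), ex A φ (g ^ 2) =
        ((Finset.univ.filter (fun g : G => ¬ g ∈ A)).card : ℂ) := by
      rw [Finset.card_eq_sum_ones, Nat.cast_sum]
      refine Finset.sum_congr rfl fun g hgm => ?_
      have hgA : g ∉ A := (Finset.mem_filter.1 hgm).2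
      rw [pow_two, (hg g hgA).1]
      unfold ex
      rw [dif_pos A.one_mem]
      have : (⟨1, A.one_mem⟩ : A) = 1 := rfl
      rw [this, map_one]
      simp
    have e3 : (Finset.univ.filter (fun g : G => g ∈ A)).card +
        (Finset.univ.filter (fun g : G => ¬ g ∈ A)).card = Nat.card G := by
      rw [Finset.card_filter_add_card_filter_not, Finset.card_univ, Nat.card_eq_fintype_card]
    have e4 : (Finset.univ.filter (fun g : G => g ∈ A)).card = Nat.card A := by
      rw [Nat.card_eq_fintype_card, Fintype.card_subtype]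
    have e5 : (Finset.univ.filter (fun g : G => ¬ g ∈ A)).card = Nat.card A := by omega
    rw [e1, e2, e5, zero_add]
  have h5 : ∑ g : G, indc A φ (g ^ 2) = Nat.card G := by
    have h6 : (Nat.card A : ℂ) * ∑ g : G, indc A φ (g ^ 2) = (Nat.card A : ℂ) * Nat.card G := by
      rw [Finset.mul_sum]
      rw [Finset.sum_congr rfl fun g _ => Pool.Agent.H58.R2.indc_sum A φ (g ^ 2),
        Finset.sum_comm]
      have h7 : ∀ y g : G, Pool.Agent.H58.R2.tm A φ (g ^ 2) y = ex A φ ((y⁻¹ * g * y) ^ 2) := by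
        intro y g
        have e : y⁻¹ * g ^ 2 * y = (y⁻¹ * g * y) ^ 2 := by
          rw [pow_two, pow_two]; group
        unfold Pool.Agent.H58.R2.tm ex
        by_cases h : y⁻¹ * g ^ 2 * y ∈ A
        · have h' := h
          rw [e] at h'
          rw [dif_pos h, dif_pos h']
          congr 2
          exact Subtype.ext e
        · have h' := h
          rw [e] at h'
          rw [dif_neg h, dif_neg h']
      have h8 : ∀ y : G, ∑ g : G, Pool.Agent.H58.R2.tm A φ (g ^ 2) y = Nat.card A := by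
        intro y
        rw [Finset.sum_congr rfl fun g _ => h7 y g]
        have h8 := Equiv.sum_comp ((Equiv.mulLeft y⁻¹).trans (Equiv.mulRight y))
          (fun g => ex A φ (g ^ 2))
        rw [h2] at h8
        exact h8
      rw [Finset.sum_congr rfl fun y _ => h8 y, Finset.sum_const, Finset.card_univ,
        nsmul_eq_mul, ← Nat.card_eq_fintype_card, mul_comm]
    exact mul_left_cancel₀ hA0 h6
  unfold Pool.Agent.H37.CA.nu
  rw [finsum_eq_sum_of_fintype, h5, inv_mul_cancel₀ hG0]

end Pool.Agent.H22.CN
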