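import Pool.Agent.H31.CN.T6
import Pool.Agent.H46.CN.NF
import Pool.Agent.H51.CN.PZ2

/-! Row SPI of the board `cna_modules`: the prime ideals above a prime number that splits. -/

set_option autoImplicit false

open NumberField
open scoped nonZeroDivisors

namespace Pool.Agent.H22.CN

open Pool.Agent.H31.CN

theorem pf_SPI (hOB0 : T_OB0) (hOB4 : T_OB4) : T_SPI := by
  intro D K _ _ hD hD4 hfin hdisc p hp hchi
  obtain ⟨σ⟩ := (inferInstance : Nonempty (K →+* ℂ))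
  obtain ⟨α, β, hOB⟩ := hOB0 D K σ hD hD4 hfin hdisc
  have him := Pool.Agent.H46.CN.OB_im K σ ⊤ α β _ hOB
  have hp0 : (p : 𝓞 K) ≠ 0 := by exact_mod_cast hp.ne_zero
  -- `α` is a unit
  have hα : Ideal.span {α} = ⊤ := by
    rw [← Ideal.absNorm_eq_one_iff]
    have h1 := Pool.Agent.H46.CN.absNorm_span K σ hfin him α
    have h2 := hOB.nrm (1, 0)
    have h3 : (((1 : ℤ) : 𝓞 K) * α + ((0 : ℤ) : 𝓞 K) * β) = α := by push_cast; ring
    simp only [h3, Ideal.absNorm_top, val] at h2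
    rw [h2] at h1
    have h4 : (Ideal.absNorm (Ideal.span {α}) : ℝ) = 1 := by
      rw [h1]
      push_cast
      ring
    exact_mod_cast h4
  have hsp : Ideal.span {(((p : ℤ) : 𝓞 K) * α + ((0 : ℤ) : 𝓞 K) * β)} =
      Ideal.span {(p : 𝓞 K)} * ⊤ := by
    rw [← hα, Ideal.span_singleton_mul_span_singleton]
    congr 2
    push_cast
    ring
  have hb : Ideal.span {(p : 𝓞 K)} ∈ (Ideal (𝓞 K))⁰ := by
    rw [mem_nonZeroDivisors_iff_ne_zero]
    intro h
    exact hp0 (Ideal.span_singleton_eq_bot.1 h)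
  have ht : (⊤ : Ideal (𝓞 K)) ∈ (Ideal (𝓞 K))⁰ := by
    rw [mem_nonZeroDivisors_iff_ne_zero]
    exact top_ne_bot
  have hcount := hOB4 D K σ hD hD4 hfin hdisc ⟨⊤, ht⟩ ⟨Ideal.span {(p : 𝓞 K)}, hb⟩ α β
    (1, 1, ((D : ℤ) + 1) / 4) ((p : ℤ), 0) p hOB (by
      intro h
      have := congrArg Prod.fst h
      simp only [Prod.fst_zero] at this
      exact hp.ne_zero (by exact_mod_cast this)) hp hsp
  have hnul : nul p (1, 1, ((D : ℤ) + 1) / 4) ((p : ℤ), 0) = 2 := by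
    unfold nul prt
    rw [if_pos ⟨dvd_refl _, dvd_zero _⟩]
    have h1 : ¬ (p : ℤ) ∣ 1 := by
      intro h
      have h2 : p ∣ 1 := by exact_mod_cast h
      exact hp.one_lt.ne' (Nat.dvd_one.1 h2)
    simp only
    rw [if_neg h1, zero_add]
    have h2 := Pool.Agent.H51.CN.nrt_chi p hp (((D : ℤ) + 1) / 4)
    have h3 : 4 * (((D : ℤ) + 1) / 4) - 1 = D := by omega
    rw [h3, hchi] at h2
    push_cast at h2
    have h4 : (nrt p 1 1 (((D : ℤ) + 1) / 4) : ℝ) = 2 := by rw [h2]; norm_num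
    exact_mod_cast h4
  rw [hnul] at hcount
  obtain ⟨⟨P, hP1, hP2⟩, ⟨P', hP1', hP2'⟩, hne, -⟩ := Nat.card_eq_two_iff.1 hcount.symm
  have hneq : P ≠ P' := fun h => hne (Subtype.ext h)
  have hprime : ∀ Q : Ideal (𝓞 K), Ideal.absNorm Q = p → Q.IsPrime := fun Q hQ =>
    Ideal.isPrime_of_irreducible_absNorm (by rw [hQ]; exact hp)
  have hPp := hprime P hP1
  have hPp' := hprime P' hP1'
  have hbot : ∀ Q : Ideal (𝓞 K), Ideal.absNorm Q = p → Q ≠ ⊥ := by
    intro Q hQ h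
    rw [h, Ideal.absNorm_bot] at hQ
    exact hp.ne_zero hQ.symm
  have hPm : P.IsMaximal := hPp.isMaximal (hbot P hP1)
  have hPm' : P'.IsMaximal := hPp'.isMaximal (hbot P' hP1')
  have hcop : IsCoprime P P' := by
    rw [Ideal.isCoprime_iff_sup_eq]
    exact hPm.coprime_of_ne hPm' hneq
  obtain ⟨J, hJ⟩ := hcop.mul_dvd hP2 hP2'
  refine ⟨P, P', hPp, hPp', hneq, hP1, hP1', ?_⟩
  have hN := Pool.Agent.H46.CN.absNorm_span K σ hfin him (p : 𝓞 K)
  have hN2 : (Ideal.absNorm (Ideal.span {(p : 𝓞 K)}) : ℝ) = (p : ℝ) * p := by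
    rw [hN]
    simp [Complex.normSq_natCast]
  have hN3 : Ideal.absNorm (Ideal.span {(p : 𝓞 K)}) = p * p := by exact_mod_cast hN2
  have hJ' : Ideal.span {(p : 𝓞 K)} = P * P' * J := hJ
  have hN4 := congrArg Ideal.absNorm hJ'
  rw [hN3, map_mul, map_mul, hP1, hP1'] at hN4
  have hJ1 : Ideal.absNorm J = 1 := by
    have hpp : 0 < p * p := Nat.mul_pos hp.pos hp.pos
    exact (Nat.eq_of_mul_eq_mul_left hpp (by rw [mul_one]; exact hN4)).symm
  rw [Ideal.absNorm_eq_one_iff] at hJ1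
  rw [hJ', hJ1, Ideal.mul_top]

end Pool.Agent.H22.CN
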